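import Pool.Agent.Helper95.KZ.Goals

/-!
# Project KZ, packet LIN
-/

set_option autoImplicit false

namespace Pool.Agent.Helper45.KZ

open Pool.Agent.Helper52.Wq2 Pool.Agent.Helper61.NW Pool.Agent.Helper95.KZ

universe u

variable {Γ : Type u} [Group Γ] {S : Set Γ}

/-- paths of length `n` -/
def Pa (S : Set Γ) (n : ℕ) (x y : Γ) : Prop :=
  ∃ u : ℕ → Γ, u 0 = x ∧ u n = y ∧ ∀ i, i < n → (u i)⁻¹ * u (i + 1) ∈ S

theorem Pa.trans {m n : ℕ} {x y z : Γ} (h1 : Pa S m x y) (h2 : Pa S n y z) :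
    Pa S (m + n) x z := by
  obtain ⟨u, hu0, hum, hu⟩ := h1
  obtain ⟨v, hv0, hvn, hv⟩ := h2
  refine ⟨fun i => if i ≤ m then u i else v (i - m), ?_, ?_, ?_⟩
  · simp [hu0]
  · by_cases hn : n = 0
    · subst hn
      simp only [add_zero, le_refl, if_true]
      rw [hum, ← hvn, hv0]
    · have h : ¬ m + n ≤ m := by omega
      simp only [h, if_false]
      rw [Nat.add_sub_cancel_left, hvn]
  · intro i hi
    rcases Nat.lt_trichotomy i m with h | h | h
    · have h5 : i ≤ m := by omega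
      have h6 : i + 1 ≤ m := by omega
      simp only [h5, h6, if_true]
      exact hu i h
    · subst h
      have h6 : ¬ i + 1 ≤ i := by omega
      simp only [le_refl, h6, if_true, if_false]
      have e : i + 1 - i = 0 + 1 := by omega
      rw [e, hum, ← hv0]
      exact hv 0 (by omega)
    · have h5 : ¬ i ≤ m := by omega
      have h6 : ¬ i + 1 ≤ m := by omega
      simp only [h5, h6, if_false]
      have e : i + 1 - m = (i - m) + 1 := by omega
      rw [e]
      exact hv _ (by omega)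

theorem Pa.mul {n : ℕ} {x y : Γ} (g : Γ) (h : Pa S n x y) : Pa S n (g * x) (g * y) := by
  obtain ⟨u, hu0, hun, hu⟩ := h
  refine ⟨fun i => g * u i, by show g * u 0 = g * x; rw [hu0],
    by show g * u n = g * y; rw [hun], fun i hi => ?_⟩
  have : (g * u i)⁻¹ * (g * u (i + 1)) = (u i)⁻¹ * u (i + 1) := by group
  rw [this]
  exact hu i hi

theorem Pa.symm (hS : IsGen S) {n : ℕ} {x y : Γ} (h : Pa S n x y) : Pa S n y x := by
  obtain ⟨u, hu0, hun, hu⟩ := h
  refine ⟨fun i => u (n - i), by show u (n - 0) = y; rw [Nat.sub_zero, hun],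
    by show u (n - n) = x; rw [Nat.sub_self, hu0], fun i hi => ?_⟩
  have h1 := hS.2.1 _ (hu (n - (i + 1)) (by omega))
  have e : n - (i + 1) + 1 = n - i := by omega
  rw [e, mul_inv_rev, inv_inv] at h1
  exact h1

theorem exists_pa (hS : IsGen S) (g : Γ) : ∀ x : Γ, ∃ n, Pa S n x (x * g) := by
  have hg : g ∈ Subgroup.closure S := by rw [hS.1]; trivial
  induction hg using Subgroup.closure_induction with
  | mem s hs =>
    intro x
    refine ⟨1, fun i => if i = 0 then x else x * s, by simp, by simp, fun i hi => ?_⟩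
    have : i = 0 := by omega
    subst this
    simpa using hs
  | one => intro x; exact ⟨0, fun _ => x, rfl, (mul_one x).symm, fun i hi => absurd hi (by omega)⟩
  | mul a b _ _ ha hb =>
    intro x
    obtain ⟨m, hm⟩ := ha x
    obtain ⟨n, hn⟩ := hb (x * a)
    rw [mul_assoc] at hn
    exact ⟨m + n, hm.trans hn⟩
  | inv a _ ha =>
    intro x
    obtain ⟨n, hn⟩ := ha (x * a⁻¹)
    rw [inv_mul_cancel_right] at hn
    exact ⟨n, hn.symm hS⟩

/-- **LIN.** -/
theorem lin : LinStmt.{u} := by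
  intro Γ _ S K a hS hK ha haK
  classical
  have hcom : ∀ k ∈ K, ∀ l : ℤ, a ^ l * k = k * a ^ l := fun k hk l =>
    (Commute.zpow_left (show Commute a k from ha k hk) l)
  obtain ⟨P, hP⟩ : ∃ P : ℕ → Prop, P = fun n => ∃ x : Γ, ∃ k ∈ K, ∃ j : ℤ, j ≠ 0 ∧
    Pa S n x (k * a ^ j * x) := ⟨_, rfl⟩
  have hex : ∃ n, P n := by
    obtain ⟨n, hn⟩ := exists_pa hS a 1
    rw [hP]
    exact ⟨n, 1, 1, K.one_mem, 1, one_ne_zero, by simpa using hn⟩
  obtain ⟨n, hn, hmin⟩ : ∃ n, P n ∧ ∀ m, m < n → ¬ P m :=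
    ⟨Nat.find hex, Nat.find_spec hex, fun m hm => Nat.find_min hex hm⟩
  rw [hP] at hn hmin
  obtain ⟨x, κ, hκ, j, hj, u, hu0, hun, hu⟩ := hn
  have hmin' : ∀ m, m < n → ∀ (y k : Γ), k ∈ K → ∀ l : ℤ, l ≠ 0 → ¬ Pa S m y (k * a ^ l * y) :=
    fun m hm y k hk l hl h => hmin m hm ⟨y, k, hk, l, hl, h⟩
  have hn0 : 0 < n := by
    rcases Nat.eq_zero_or_pos n with h | h
    · exfalso
      rw [h, hu0] at hun
      have h1 : κ * a ^ j = 1 := by
        have := hun.symm
        exact mul_eq_right.1 this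
      apply hj
      apply haK
      have : a ^ j = κ⁻¹ := (eq_inv_of_mul_eq_one_right h1)
      rw [this]
      exact K.inv_mem hκ
    · exact h
  have hsub : ∀ i i', i ≤ i' → i' ≤ n → Pa S (i' - i) (u i) (u i') := by
    intro i i' h1 h2
    refine ⟨fun t => u (i + t), rfl, by
      show u (i + (i' - i)) = u i'
      rw [Nat.add_sub_cancel' h1], fun t ht => ?_⟩
    exact hu (i + t) (by omega)
  -- no repetition
  have hrep : ∀ i i', i < i' → i' < n → ∀ k ∈ K, ∀ l : ℤ, u i = k * a ^ l * u i' → False := by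
    intro i i' h1 h2 k hk l he
    by_cases hl : l = 0
    · rw [hl, zpow_zero, mul_one] at he
      have p1 := hsub 0 i (by omega) (by omega)
      have p2 := (hsub i' n h2.le le_rfl).mul k
      rw [← he] at p2
      have p3 := p1.trans p2
      rw [hun, hu0] at p3
      have e1 : k * (κ * a ^ j * x) = (k * κ) * a ^ j * x := by group
      rw [e1] at p3
      exact hmin' _ (by omega) x (k * κ) (K.mul_mem hk hκ) j hj p3
    · have p1 := hsub i i' h1.le h2.le
      have e1 : u i' = k⁻¹ * a ^ (-l) * u i := by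
        rw [he, ← hcom _ (K.inv_mem hk), zpow_neg]
        group
      rw [e1] at p1
      exact hmin' _ (by omega) (u i) k⁻¹ (K.inv_mem hk) (-l) (neg_ne_zero.2 hl) p1
  have hinj : ∀ i i', i < n → i' < n → ∀ k ∈ K, ∀ l : ℤ, u i = k * a ^ l * u i' → i = i' := by
    intro i i' h1 h2 k hk l he
    rcases Nat.lt_trichotomy i i' with h | h | h
    · exact (hrep i i' h h2 k hk l he).elim
    · exact h
    · have e1 : u i' = k⁻¹ * a ^ (-l) * u i := by
        rw [he, ← hcom _ (K.inv_mem hk), zpow_neg]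
        group
      exact (hrep i' i h h1 k⁻¹ (K.inv_mem hk) (-l) e1).elim
  obtain ⟨c, hc⟩ : ∃ c : Γ, c = κ * a ^ j := ⟨_, rfl⟩
  have hcz : ∀ i : ℤ, c ^ i = κ ^ i * a ^ (j * i) := by
    intro i
    have h1 : Commute κ (a ^ j) := (hcom κ hκ j).symm
    rw [hc, h1.mul_zpow, zpow_mul]
  refine ⟨κ, hκ, j, hj, u '' Set.Iio n, (Set.finite_Iio n).image u, ⟨u 0, 0, hn0, rfl⟩, ?_, ?_⟩
  · rw [← hc]
    have hnz : (0 : ℤ) < n := by exact_mod_cast hn0
    have hset : {y : Γ | ∃ i : ℤ, ∃ f ∈ u '' Set.Iio n, y = c ^ i * f} =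
        {v | ∃ t : ℤ, True ∧ c ^ (t / n) * u (t % n).toNat = v} := by
      ext y
      constructor
      · rintro ⟨i, f, ⟨p, hp, rfl⟩, rfl⟩
        have hp' : p < n := hp
        refine ⟨n * i + p, trivial, ?_⟩
        have e1 : ((n : ℤ) * i + p) / n = i := by
          rw [Int.mul_add_ediv_left _ _ hnz.ne', Int.ediv_eq_zero_of_lt (by omega) (by omega),
            add_zero]
        have e2 : ((n : ℤ) * i + p) % n = p := by
          rw [Int.mul_add_emod_self_left]
          exact Int.emod_eq_of_lt (by omega) (by omega)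
        rw [e1, e2, Int.toNat_natCast]
      · rintro ⟨t, -, rfl⟩
        have h1 := Int.emod_nonneg t hnz.ne'
        have h2 := Int.emod_lt_of_pos t hnz
        exact ⟨t / n, _, ⟨(t % n).toNat, show (t % n).toNat < n by omega, rfl⟩, rfl⟩
    rw [hset]
    refine conn_line (fun t : ℤ => c ^ (t / n) * u (t % n).toNat) (fun _ => True) 0 trivial
      (fun _ _ _ => trivial) (fun _ _ _ => trivial) ?_
    intro t _ _
    show (cay S).Adj (c ^ (t / n) * u (t % n).toNat) (c ^ ((t + 1) / n) * u ((t + 1) % n).toNat)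
    have h1 := Int.emod_nonneg t hnz.ne'
    have h2 := Int.emod_lt_of_pos t hnz
    have h3 := Int.emod_add_mul_ediv t n
    have key : c ^ ((t + 1) / n) * u ((t + 1) % n).toNat =
        c ^ (t / n) * u ((t % n).toNat + 1) := by
      rcases lt_or_ge (t % n + 1) n with h | h
      · have e0 : t + 1 = (n : ℤ) * (t / n) + (t % n + 1) := by omega
        have e1 : (t + 1) / n = t / n := by
          conv_lhs => rw [e0]
          rw [Int.mul_add_ediv_left _ _ hnz.ne', Int.ediv_eq_zero_of_lt (by omega) h, add_zero]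
        have e2 : (t + 1) % n = t % n + 1 := by
          conv_lhs => rw [e0]
          rw [Int.mul_add_emod_self_left]
          exact Int.emod_eq_of_lt (by omega) h
        have e3 : (t % n + 1).toNat = (t % n).toNat + 1 := by omega
        rw [e1, e2, e3]
      · have e4 : t % n + 1 = n := by omega
        have e0 : t + 1 = (n : ℤ) * (t / n + 1) + 0 := by
          have : (n : ℤ) * (t / n + 1) = n * (t / n) + n := by ring
          omega
        have e1 : (t + 1) / n = t / n + 1 := by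
          conv_lhs => rw [e0]
          rw [Int.mul_add_ediv_left _ _ hnz.ne', Int.zero_ediv, add_zero]
        have e2 : (t + 1) % n = 0 := by
          conv_lhs => rw [e0]
          rw [Int.mul_add_emod_self_left, Int.zero_emod]
        have e3 : (t % n).toNat + 1 = n := by omega
        rw [e1, e2, e3, hun, Int.toNat_zero, hu0, zpow_add_one, mul_assoc, hc]
    rw [key, cay_adj hS]
    have e5 : (c ^ (t / n) * u (t % n).toNat)⁻¹ * (c ^ (t / n) * u ((t % n).toNat + 1)) =
        (u (t % n).toNat)⁻¹ * u ((t % n).toNat + 1) := by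
      rw [mul_inv_rev, mul_assoc, inv_mul_cancel_left]
    rw [e5]
    exact hu _ (by omega)
  · rw [← hc]
    rintro k hk hk1 y ⟨i, f, ⟨p, hp, rfl⟩, rfl⟩ ⟨l, f', ⟨q, hq, rfl⟩, he⟩
    have hp' : p < n := hp
    have hq' : q < n := hq
    -- `u q = (c ^ (-l) k c ^ l) c ^ (i - l) u p`
    obtain ⟨k', hk'⟩ : ∃ k' : Γ, k' = (c ^ l)⁻¹ * k * c ^ l := ⟨_, rfl⟩
    have hk'K : k' ∈ K := by
      have := hK.conj_mem k hk (c ^ l)⁻¹
      rw [inv_inv] at this
      rw [hk']
      exact this
    have e1 : u q = (k' * κ ^ (i - l)) * a ^ (j * (i - l)) * u p := by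
      rw [mul_assoc k', ← hcz, hk']
      have h1 : u q = (c ^ l)⁻¹ * (k * (c ^ i * u p)) := by rw [he, inv_mul_cancel_left]
      rw [h1, zpow_sub]
      have h2 : c ^ i * (c ^ l)⁻¹ = (c ^ l)⁻¹ * c ^ i := by
        rw [← zpow_neg, ← zpow_add, ← zpow_add, add_comm]
      rw [h2]
      group
    have hkK : k' * κ ^ (i - l) ∈ K := K.mul_mem hk'K (K.zpow_mem hκ _)
    have hqp := hinj q p hq' hp' _ hkK _ e1
    rw [hqp] at e1
    have e2 : (k' * κ ^ (i - l)) * a ^ (j * (i - l)) = 1 := mul_eq_right.1 e1.symm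
    have e3 : a ^ (j * (i - l)) ∈ K := by
      have : a ^ (j * (i - l)) = (k' * κ ^ (i - l))⁻¹ := eq_inv_of_mul_eq_one_right e2
      rw [this]
      exact K.inv_mem hkK
    have e4 : i - l = 0 := by
      rcases mul_eq_zero.1 (haK _ e3) with h | h
      · exact absurd h hj
      · exact h
    rw [e4, mul_zero, zpow_zero, zpow_zero, mul_one, mul_one, hk'] at e2
    apply hk1
    have e5 : k = c ^ l * ((c ^ l)⁻¹ * k * c ^ l) * (c ^ l)⁻¹ := by group
    rw [e5, e2]
    group

end Pool.Agent.Helper45.KZ
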